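import Mathlib
import Pool.Agent.H29.James

set_option autoImplicit false

namespace Pool.Agent.Results.MP_479f73_an.FinDim

open Set Filter Topology RCLike Pool.Agent.H29.James

/-- The weak maximizing property of the pair `(E, F)`. -/
def WMP (𝕜 E F : Type) [RCLike 𝕜] [NormedAddCommGroup E] [NormedSpace 𝕜 E]
    [NormedAddCommGroup F] [NormedSpace 𝕜 F] : Prop :=
  ∀ (T : E →L[𝕜] F) (x : ℕ → E), (∀ n, ‖x n‖ = 1) → Tendsto (fun n => ‖T (x n)‖) atTop (𝓝 ‖T‖) →
    ¬ (∀ φ : StrongDual 𝕜 E, Tendsto (fun n => φ (x n)) atTop (𝓝 0)) → ∃ y, ‖y‖ = 1 ∧ ‖T y‖ = ‖T‖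

variable {𝕜 E : Type} [RCLike 𝕜] [NormedAddCommGroup E] [NormedSpace 𝕜 E]

lemma na (h : WMP 𝕜 E 𝕜) (g : StrongDual 𝕜 E) (hg : g ≠ 0) : ∃ t, ‖t‖ = 1 ∧ re (g t) = ‖g‖ := by
  have g0 := norm_pos_iff.2 hg
  obtain ⟨u, -, u1, u2⟩ := exists_seq_strictMono_tendsto' g0
  have : ∀ n, ∃ x, ‖x‖ = 1 ∧ u n < ‖g x‖ := fun n => by
    by_contra! H
    exact (g.opNorm_le_of_unit_norm (u1 n).1.le H).not_gt (u1 n).2
  choose x x1 x2 using this
  have t := tendsto_of_tendsto_of_tendsto_of_le_of_le u2 tendsto_const_nhds (fun n => (x2 n).le)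
    fun n => g.unit_le_opNorm _ (x1 n).le
  obtain ⟨y, y1, y2⟩ := h g x x1 t fun H => g0.ne' (tendsto_nhds_unique t (by simpa using (H g).norm))
  obtain ⟨z, z1, z2⟩ := rot g y
  exact ⟨z, z1.trans y1, z2.trans y2⟩

lemma null (NA : ∀ g : StrongDual 𝕜 E, ∃ t, ‖t‖ ≤ 1 ∧ re (g t) = ‖g‖)
    (hE : ¬ FiniteDimensional 𝕜 E) : ∃ g : ℕ → StrongDual 𝕜 E, (∀ n, ‖g n‖ = 1) ∧
      ∀ x, Tendsto (fun n => g n x) atTop (𝓝 0) := by
  let b := Module.Basis.ofVectorSpace 𝕜 (StrongDual 𝕜 E)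
  have : Infinite (Module.Basis.ofVectorSpaceIndex 𝕜 (StrongDual 𝕜 E)) := not_finite_iff_infinite.1
    fun _ => hE (have := Module.Finite.of_basis b
      .of_injective (NormedSpace.inclusionInDoubleDualLi 𝕜 (E := E)).toLinearMap
        (LinearIsometry.injective _))
  let e : ℕ → StrongDual 𝕜 E := b ∘ Infinite.natEmbedding _
  have li : LinearIndependent 𝕜 e := b.linearIndependent.comp _ (Function.Embedding.injective _)
  let S := Submodule.span 𝕜 (range e)
  obtain ⟨c, cc, hc⟩ : TopologicalSpace.IsSeparable (S : Set (StrongDual 𝕜 E)) :=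
    (countable_range e).isSeparable.span
  obtain ⟨d, rfl⟩ := cc.exists_eq_range (closure_nonempty_iff.1 ⟨0, hc S.zero_mem⟩)
  choose y y1 y2 using fun j => NA (d j)
  have : ∀ n, ∃ g ∈ S, ‖g‖ = 1 ∧ ∀ j < n, g (y j) = 0 := fun n => by
    obtain ⟨a, ha, a0⟩ := (Submodule.ne_bot_iff _).1 (LinearMap.ker_ne_bot_of_finrank_lt
      (f := (LinearMap.pi fun j : Fin n => (ContinuousLinearMap.apply 𝕜 𝕜 (y j)).toLinearMap) ∘ₗ
        Fintype.linearCombination 𝕜 fun i : Fin (n + 1) => e i) (by simp))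
    set g := Fintype.linearCombination 𝕜 (fun i : Fin (n + 1) => e i) a with hg
    have g0 : g ≠ 0 := fun h => a0 (funext (Fintype.linearIndependent_iff.1
      (li.comp _ Fin.val_injective) a h))
    refine ⟨(‖g‖⁻¹ : 𝕜) • g, S.smul_mem _ ?_, norm_smul_inv_norm g0, fun j hj => ?_⟩
    · rw [hg, Fintype.linearCombination_apply]
      exact S.sum_mem fun i _ => S.smul_mem _ (Submodule.subset_span ⟨_, rfl⟩)
    rw [ContinuousLinearMap.smul_apply, show g (y j) = 0 from congrFun ha ⟨j, hj⟩, smul_zero]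
  choose g gS g1 gy using this
  refine ⟨g, g1, fun x => ?_⟩
  by_contra H
  wlog hx : ‖x‖ ≤ 1 generalizing x with W
  · have x0 : x ≠ 0 := fun h => hx (by simp [h])
    refine W ((‖x‖⁻¹ : 𝕜) • x) (fun h => H ?_) (norm_smul_inv_norm x0).le
    simpa [x0] using h.const_mul (‖x‖ : 𝕜)
  simp only [Metric.tendsto_nhds, dist_zero_right, not_forall, not_eventually, not_lt] at H
  obtain ⟨θ, θ0, fr⟩ := H
  obtain ⟨k, mk, hk⟩ := extraction_of_frequently_atTop fr
  choose a a1 a2 using fun n => exists_norm_eq_mul_self (g (k n) x)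
  have θ1 : θ ≤ 1 := (hk 0).trans (((g _).unit_le_opNorm _ hx).trans (g1 _).le)
  refine james NA (fun n => a n • g (k n)) (fun n => by simp [norm_smul, a1, g1]) (θ := θ / 3)
    (by positivity) (by linarith) fun h hh φ hφ c hc' => ?_
  have h1 : θ ≤ ‖h‖ := le_trans (Cre (convex_Ici θ) (fun j _ => by
    rw [ContinuousLinearMap.smul_apply, smul_eq_mul, ← a2, ofReal_re]
    exact hk j) h hh) (abs_le.1 (re_le h hx)).2
  obtain ⟨_, ⟨j, rfl⟩, hj⟩ := Metric.mem_closure_iff.1 (hc (Cmin (S.restrictScalars ℝ).convex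
    (fun j _ => S.smul_mem _ (gS _)) hh)) _ (show 0 < θ / 3 by positivity)
  rw [dist_eq_norm] at hj
  have h2 := (abs_le.1 (re_le (h - d j) (y1 j))).1
  have h3 := norm_sub_norm_le h (d j)
  rw [ContinuousLinearMap.sub_apply, map_sub, y2] at h2
  refine le_of_forall_pos_le_add fun η hη => ?_
  obtain ⟨i, i1, i2⟩ := ((hc' _ (y1 j) η hη).and (eventually_gt_atTop j)).exists
  have : re (φ i (y j)) = 0 := Cre (convex_singleton 0) (fun l hl => by
    simp [gy (k l) j (i2.trans_le (hl.trans mk.le_apply))]) _ (hφ i)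
  linarith

lemma minf (h1 : WMP 𝕜 E 𝕜) (h2 : WMP 𝕜 E (lp (fun _ : ℕ => 𝕜) ⊤)) {g : ℕ → StrongDual 𝕜 E}
    (g1 : ∀ n, ‖g n‖ = 1) (g0 : ∀ x, Tendsto (fun n => g n x) atTop (𝓝 0)) (f : StrongDual 𝕜 E)
    {t ε : ℝ} (ft : ‖f‖ ≤ t) (hε : 0 < ε) : ∀ᶠ n in atTop, ‖f + t • g n‖ ≤ t + ε := by
  by_contra H
  simp only [not_eventually, not_le] at H
  obtain ⟨k, mk, hk⟩ := extraction_of_frequently_atTop H
  have t0 : 0 ≤ t := (norm_nonneg _).trans ft
  set h := fun n => f + t • g (k n) with hh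
  have p : ∀ n, 0 < ‖h n‖ := fun n => lt_trans (by positivity) (hk n)
  choose x x1 x2 using fun n => na h1 (h n) (norm_pos_iff.1 (p n))
  obtain ⟨c, mc, c1, c2⟩ := exists_seq_strictMono_tendsto' (zero_lt_one' ℝ)
  have nm : ∀ n y, ‖((c n / ‖h n‖ : ℝ) : 𝕜) * h n y‖ = c n * (‖h n y‖ / ‖h n‖) := fun n y => by
    rw [norm_mul, norm_ofReal, abs_of_pos (div_pos (c1 n).1 (p n))]
    ring
  have bd : ∀ y n, ‖((c n / ‖h n‖ : ℝ) : 𝕜) * h n y‖ ≤ c n * ‖y‖ := fun y n => by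
    rw [nm]
    exact mul_le_mul_of_nonneg_left ((div_le_iff₀' (p n)).2 ((h n).le_opNorm y)) (c1 n).1.le
  have bd' : ∀ y n, ‖((c n / ‖h n‖ : ℝ) : 𝕜) * h n y‖ ≤ 1 * ‖y‖ := fun y n =>
    (bd y n).trans (by gcongr; exact (c1 n).2.le)
  let L : E →ₗ[𝕜] lp (fun _ : ℕ => 𝕜) ⊤ :=
    { toFun := fun y => ⟨fun n => ((c n / ‖h n‖ : ℝ) : 𝕜) * h n y,
        memℓp_infty ⟨_, forall_mem_range.2 (bd' y)⟩⟩
      map_add' := fun a b => lp.ext (funext fun n => by simp [mul_add])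
      map_smul' := fun a b => lp.ext (funext fun n => by simp [mul_left_comm]) }
  have hL : ∀ y, ‖L y‖ ≤ 1 * ‖y‖ := fun y => lp.norm_le_of_forall_le (by positivity) (bd' y)
  let T := L.mkContinuous 1 hL
  have T1 : ‖T‖ ≤ 1 := L.mkContinuous_norm_le zero_le_one hL
  have lo : ∀ n, c n ≤ ‖T (x n)‖ := fun n => by
    refine le_trans ?_ (lp.norm_apply_le_norm (by simp) (L (x n)) n)
    refine le_of_le_of_eq (le_mul_of_one_le_right (c1 n).1.le ((one_le_div (p n)).2 ?_)) (nm n _).symm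
    exact (x2 n).ge.trans (re_le_norm _)
  have up : ∀ n, ‖T (x n)‖ ≤ ‖T‖ := fun n => T.unit_le_opNorm _ (x1 n).le
  have T2 : ‖T‖ = 1 := T1.antisymm (le_of_tendsto' c2 fun n => (lo n).trans (up n))
  obtain ⟨y, y1, y2⟩ := h2 T x x1 (T2 ▸ tendsto_of_tendsto_of_tendsto_of_le_of_le c2
    tendsto_const_nhds lo fun n => (up n).trans T1) fun H => by
      obtain ⟨n, hn⟩ := ((H f).norm.eventually (gt_mem_nhds (by simpa using hε))).exists
      have a1 := (abs_le.1 (re_le (g (k n)) (x1 n).le)).2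
      have a2 : re (h n (x n)) = re (f (x n)) + t * re (g (k n) (x n)) := by
        simp [hh, real_smul_eq_coe_mul]
      rw [g1] at a1
      nlinarith [x2 n, hk n, re_le_norm (f (x n))]
  have : Tendsto (fun n => ‖h n y‖) atTop (𝓝 ‖f y‖) := by
    simpa [hh] using ((((g0 y).comp mk.tendsto_atTop).const_smul t).const_add (f y)).norm
  obtain ⟨N, hN⟩ := eventually_atTop.1 (this.eventually (gt_mem_nhds
    (show ‖f y‖ < t + ε / 2 by linarith [f.unit_le_opNorm y y1.le])))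
  refine (lp.norm_le_of_forall_le (f := L y) (C := max (c N) ((t + ε / 2) / (t + ε)))
    (by positivity) fun n => ?_).not_gt ((max_lt (c1 N).2 ((div_lt_one (by positivity)).2
      (by linarith))).trans_eq (y2.trans T2).symm)
  rcases le_total n N with hn | hn
  · exact le_max_of_le_left ((bd y n).trans (by rw [y1, mul_one]; exact mc.monotone hn))
  · refine le_max_of_le_right ((nm n y).trans_le ((mul_le_of_le_one_left (by positivity)
      (c1 n).2.le).trans ?_))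
    gcongr
    exacts [(hN n hn).le, (hk n).le]

theorem result (𝕜 E : Type) [RCLike 𝕜] [NormedAddCommGroup E] [NormedSpace 𝕜 E] [CompleteSpace E]
    (h : ∀ (F : Type) [NormedAddCommGroup F] [NormedSpace 𝕜 F] [CompleteSpace F], WMP 𝕜 E F) :
    FiniteDimensional 𝕜 E := by
  classical
  by_contra hE
  have NA : ∀ g : StrongDual 𝕜 E, ∃ t, ‖t‖ ≤ 1 ∧ re (g t) = ‖g‖ := fun g => by
    rcases eq_or_ne g 0 with rfl | hg
    · exact ⟨0, by simp⟩
    · exact (na (h 𝕜) g hg).imp fun t ht => ⟨ht.1.le, ht.2⟩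
  obtain ⟨g, g1, g0⟩ := null NA hE
  let δ : ℕ → ℝ := fun n => (1 / 2) ^ n / 4
  have d0 : ∀ n, 0 < δ n := fun n => by positivity
  have d1 : ∀ n, 4 * δ n ≤ 1 := fun n => by
    simp only [δ]
    linarith [pow_le_one₀ (n := n) (a := (1 / 2 : ℝ)) (by norm_num) (by norm_num)]
  have ds : ∀ n, δ n = 2 * δ (n + 1) := fun n => by simp only [δ]; ring
  have : ∀ n (P : Finset (StrongDual 𝕜 E)), ∃ k, ∀ p ∈ P, ‖p‖ ≤ 1 - 4 * δ n →
      ‖p + (1 - 4 * δ n) • g k‖ ≤ 1 - 3 * δ n := fun n P => by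
    refine ((eventually_all_finset (l := atTop) P).2 fun p _ => ?_).exists
    by_cases hp : ‖p‖ ≤ 1 - 4 * δ n
    · exact (minf (h _) (h _) g1 g0 p hp (d0 n)).mono fun k hk _ => hk.trans_eq (by ring)
    · simp [hp]
  choose K hK using this
  let st : ℕ → StrongDual 𝕜 E × Finset (StrongDual 𝕜 E) := fun n => Nat.rec (0, {0}) (fun n p =>
    let F := p.1 + (1 - 4 * δ n) • g (K n (insert (-p.1) (p.2.image (p.1 + ·))))
    (F, insert ((-2 : ℝ) • F) (insert (δ n • F) p.2))) n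
  obtain ⟨F, P, k, F0, P0, Fs, Ps, hk⟩ : ∃ (F : ℕ → StrongDual 𝕜 E)
      (P : ℕ → Finset (StrongDual 𝕜 E)) (k : ℕ → ℕ), F 0 = 0 ∧ P 0 = {0} ∧
      (∀ n, F (n + 1) = F n + (1 - 4 * δ n) • g (k n)) ∧
      (∀ n, P (n + 1) = insert ((-2 : ℝ) • F (n + 1)) (insert (δ n • F (n + 1)) (P n))) ∧
      ∀ n, ∀ p ∈ insert (-F n) ((P n).image (F n + ·)), ‖p‖ ≤ 1 - 4 * δ n →
        ‖p + (1 - 4 * δ n) • g (k n)‖ ≤ 1 - 3 * δ n :=
    ⟨fun n => (st n).1, fun n => (st n).2, fun n => K n _, rfl, rfl, fun _ => rfl, fun _ => rfl,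
      fun n => hK n _⟩
  have mP : Monotone P := monotone_nat_of_le_succ fun n => by
    rw [Ps]
    exact (Finset.subset_insert _ _).trans (Finset.subset_insert _ _)
  have z : ∀ n, 0 ∈ P n := fun n => mP n.zero_le (by simp [P0])
  have inv : ∀ n, ∀ p ∈ P n, ‖F n + p‖ ≤ 1 - 4 * δ n := fun n => by
    induction n with
    | zero => simp [P0, F0, δ]
    | succ n ih =>
      have a : ∀ p ∈ P n, ‖F (n + 1) + p‖ ≤ 1 - 3 * δ n := fun p hp => by
        rw [Fs, add_right_comm]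
        exact hk n _ (Finset.mem_insert_of_mem (Finset.mem_image_of_mem _ hp)) (ih p hp)
      have b := a 0 (z n)
      have := d0 (n + 1)
      have := ds n
      rw [add_zero] at b
      simp only [Ps, Finset.mem_insert]
      rintro p (rfl | rfl | hp)
      · rw [show F (n + 1) + (-2 : ℝ) • F (n + 1) = -F (n + 1) by module, norm_neg]
        linarith
      · refine (norm_add_le _ _).trans ?_
        rw [norm_smul, Real.norm_of_nonneg (d0 n).le]
        nlinarith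
      · linarith [a p hp]
  have F1 : ∀ n, ‖F n‖ ≤ 1 - 4 * δ n := fun n => by simpa using inv n 0 (z n)
  obtain ⟨w, hw⟩ := ulim F fun n => (F1 n).trans (by linarith [d0 n])
  have wP : ∀ n, ∀ p ∈ P n, ‖w + p‖ ≤ 1 := fun n p hp => norm_le fun x hx => by
    rw [ContinuousLinearMap.add_apply, map_add]
    refine le_of_tendsto ((hw x).add_const _) (((eventually_ge_atTop n).mono fun m hm =>
      ?_).filter_mono Nat.hyperfilter_le_atTop)
    have := (abs_le.1 (re_le (F m + p) hx)).2.trans (inv m p (mP hm hp))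
    rw [ContinuousLinearMap.add_apply, map_add] at this
    linarith [d0 m]
  have w1 : 1 ≤ ‖w‖ := by
    have : Tendsto (fun n => 1 - 10 * δ n) atTop (𝓝 (1 - 10 * (0 / 4))) :=
      (((tendsto_pow_atTop_nhds_zero_of_lt_one (by norm_num) (by norm_num)).div_const 4).const_mul
        10).const_sub 1
    refine le_of_eq_of_le (by norm_num) (le_of_tendsto' this fun n => ?_)
    have a := hk n _ (Finset.mem_insert_self _ _) (by simpa using F1 n)
    have b := wP (n + 1) _ (Ps n ▸ Finset.mem_insert_self _ _)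
    have c := norm_add_le (F (n + 1)) (-F n + (1 - 4 * δ n) • g (k n))
    have d := norm_sub_le w (w + (-2 : ℝ) • F (n + 1))
    rw [show w - (w + (-2 : ℝ) • F (n + 1)) = (2 : ℝ) • F (n + 1) by module, norm_smul] at d
    rw [show F (n + 1) + (-F n + (1 - 4 * δ n) • g (k n)) = (2 * (1 - 4 * δ n)) • g (k n) by
      rw [Fs]; module, norm_smul, g1, Real.norm_of_nonneg (by linarith [d1 n])] at c
    simp only [Real.norm_ofNat] at d
    linarith
  obtain ⟨t, ht, e⟩ := NA w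
  refine (le_of_tendsto (hw t) (((eventually_ge_atTop 1).mono fun n hn => ?_).filter_mono
    Nat.hyperfilter_le_atTop)).not_gt (show 0 < re (w t) by linarith)
  obtain ⟨n, rfl⟩ := Nat.exists_eq_add_of_le' hn
  have := (abs_le.1 (re_le _ ht)).2.trans (wP (n + 1) (δ n • F (n + 1)) (by simp [Ps]))
  simp only [ContinuousLinearMap.add_apply, ContinuousLinearMap.smul_apply, map_add, smul_re] at this
  nlinarith [d0 n]

end Pool.Agent.Results.MP_479f73_an.FinDim
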